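import Mathlib

/-!
ROW [FN REG]. Regular extensions. If `k` (of characteristic zero) is algebraically closed in `B`, then `B` and every
extension field `F` of `k` have linearly disjoint embeddings in a common field.
-/

set_option autoImplicit false

open Polynomial

open scoped TensorProduct

namespace Pool.Agent.LibFB

section closed

variable {K E Ω : Type} [Field K] [Field E] [Field Ω] [Algebra K E] [Algebra E Ω] [Algebra K Ω]
  [IsScalarTower K E Ω]

theorem reg_minpoly (hK : ∀ e : E, IsIntegral K e → e ∈ (algebraMap K E).range) {θ : Ω}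
    (hθ : IsIntegral K θ) : (minpoly E θ).natDegree = (minpoly K θ).natDegree := by
  have hθE : IsIntegral E θ := hθ.tower_top
  have hdvd : minpoly E θ ∣ (minpoly K θ).map (algebraMap K E) :=
    minpoly.dvd_map_of_isScalarTower K E θ
  have hcoef : ∀ i, (minpoly E θ).coeff i ∈ (algebraMap K E).range := fun i =>
    hK _ (Polynomial.isIntegral_coeff_of_dvd _ _ (minpoly.monic hθ) (minpoly.monic hθE) hdvd i)
  have hlift : minpoly E θ ∈ Polynomial.lifts (algebraMap K E) := by
    rw [Polynomial.lifts_iff_coeff_lifts]
    intro n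
    exact hcoef n
  obtain ⟨q, hq, hdeg, hmon⟩ :=
    Polynomial.lifts_and_natDegree_eq_and_monic hlift (minpoly.monic hθE)
  have h1 : Polynomial.aeval θ q = 0 := by
    have h2 := minpoly.aeval E θ
    rw [← hq, Polynomial.aeval_map_algebraMap] at h2
    exact h2
  have h2 := minpoly.min K θ hmon h1
  have h3 := Polynomial.natDegree_le_natDegree h2
  have h4 := Polynomial.natDegree_le_of_dvd hdvd
    ((minpoly.monic hθ).map (algebraMap K E)).ne_zero
  rw [Polynomial.natDegree_map] at h4
  omega

theorem reg_indep [CharZero K] (hK : ∀ e : E, IsIntegral K e → e ∈ (algebraMap K E).range)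
    {n : ℕ} {b : Fin n → E} (hb : LinearIndependent K b) {a : Fin n → Ω}
    (ha : ∀ i, IsIntegral K (a i)) (h0 : ∑ i, a i * algebraMap E Ω (b i) = 0) :
    ∀ i, a i = 0 := by
  classical
  have hfd : FiniteDimensional K (IntermediateField.adjoin K (Set.range a)) := by
    refine IntermediateField.finiteDimensional_adjoin ?_
    rintro _ ⟨i, rfl⟩
    exact ha i
  obtain ⟨α, hα⟩ := Field.exists_primitive_element K (IntermediateField.adjoin K (Set.range a))
  have hαint : IsIntegral K α := Algebra.IsIntegral.isIntegral α
  have hθ : IsIntegral K (α : Ω) := hαint.map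
    (IntermediateField.adjoin K (Set.range a)).val
  -- the `a i` are polynomials in `α`
  have hpol : ∀ i, ∃ p : K[X], p.natDegree < (minpoly K (α : Ω)).natDegree ∧
      Polynomial.aeval (α : Ω) p = a i := by
    intro i
    have h1 : (⟨a i, IntermediateField.subset_adjoin K _ ⟨i, rfl⟩⟩ :
        IntermediateField.adjoin K (Set.range a)) ∈ IntermediateField.adjoin K {α} := by
      rw [hα]
      exact IntermediateField.mem_top
    rw [← IntermediateField.mem_toSubalgebra,
      IntermediateField.adjoin_simple_toSubalgebra_of_isAlgebraic hαint.isAlgebraic,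
      Algebra.adjoin_singleton_eq_range_aeval] at h1
    obtain ⟨p, hp⟩ := h1
    refine ⟨p %ₘ minpoly K (α : Ω), ?_, ?_⟩
    · exact Polynomial.natDegree_modByMonic_lt _ (minpoly.monic hθ) (minpoly.ne_one K _)
    · rw [Polynomial.aeval_modByMonic_eq_self_of_root (minpoly.aeval K _)]
      have h2 := Polynomial.aeval_algHom_apply (IntermediateField.adjoin K (Set.range a)).val α p
      have h3 : Polynomial.aeval α p = (⟨a i, IntermediateField.subset_adjoin K _ ⟨i, rfl⟩⟩ :
        IntermediateField.adjoin K (Set.range a)) := hp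
      rw [h3] at h2
      exact h2
  choose p hpd hp using hpol
  set d := (minpoly K (α : Ω)).natDegree with hd
  -- a polynomial over `E` of degree `< d` with root `α`
  let P : E[X] := ∑ i, Polynomial.C (b i) * (p i).map (algebraMap K E)
  have hPdeg : P.natDegree < (minpoly E (α : Ω)).natDegree := by
    rw [reg_minpoly hK hθ]
    have hd0 : 0 < d := minpoly.natDegree_pos hθ
    refine lt_of_le_of_lt (Polynomial.natDegree_sum_le _ _) ?_
    rw [Finset.fold_max_lt]
    refine ⟨hd0, fun i _ => ?_⟩
    refine lt_of_le_of_lt (Polynomial.natDegree_C_mul_le _ _) ?_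
    rw [Polynomial.natDegree_map]
    exact hpd i
  have hPθ : Polynomial.aeval (α : Ω) P = 0 := by
    rw [← h0, map_sum]
    refine Finset.sum_congr rfl fun i _ => ?_
    rw [map_mul, Polynomial.aeval_C, Polynomial.aeval_map_algebraMap, hp, mul_comm]
  have hP0 : P = 0 := by
    by_contra hne
    have h1 := Polynomial.natDegree_le_of_dvd (minpoly.dvd E _ hPθ) hne
    omega
  have hcoef : ∀ j i, (p i).coeff j = 0 := by
    intro j
    have h1 : ∑ i, (p i).coeff j • b i = 0 := by
      have h2 := congrArg (fun Q => Polynomial.coeff Q j) hP0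
      simp only [P, Polynomial.finsetSum_coeff, Polynomial.coeff_C_mul, Polynomial.coeff_map,
        Polynomial.coeff_zero] at h2
      rw [← h2]
      exact Finset.sum_congr rfl fun i _ => by rw [Algebra.smul_def, mul_comm]
    exact Fintype.linearIndependent_iff.1 hb _ h1
  intro i
  have h1 : p i = 0 := by
    ext j
    rw [hcoef j i, Polynomial.coeff_zero]
  rw [← hp i, h1, map_zero]

end closed

section rational

variable {k B σ K E : Type} [Field k] [Field B] [Algebra k B] [Field K] [Field E]
  [Algebra (MvPolynomial σ k) K] [IsFractionRing (MvPolynomial σ k) K]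
  [Algebra (MvPolynomial σ B) E] [IsFractionRing (MvPolynomial σ B) E] [Algebra K E]
  [Algebra (MvPolynomial σ k) E] [IsScalarTower (MvPolynomial σ k) K E]

/-- If `k` is algebraically closed in `B`, then `k(x)` is algebraically closed in `B(x)`. -/
theorem reg_closed (h : ∀ b : B, IsIntegral k b → b ∈ (algebraMap k B).range)
    (hc : ∀ p : MvPolynomial σ k, algebraMap (MvPolynomial σ k) E p =
      algebraMap (MvPolynomial σ B) E (MvPolynomial.map (algebraMap k B) p)) (e : E)
    (he : IsIntegral K e) : e ∈ (algebraMap K E).range := by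
  have h1 : IsAlgebraic (MvPolynomial σ k) e :=
    (IsFractionRing.isAlgebraic_iff (MvPolynomial σ k) K E).2 he.isAlgebraic
  obtain ⟨y, hy0, hy⟩ := h1.exists_integral_multiple
  let _ : Algebra (MvPolynomial σ k) (MvPolynomial σ B) := MvPolynomial.algebraMvPolynomial
  have : IsScalarTower (MvPolynomial σ k) (MvPolynomial σ B) E :=
    IsScalarTower.of_algebraMap_eq hc
  have h2 : IsIntegral (MvPolynomial σ B) (y • e) := hy.tower_top
  obtain ⟨f, hf⟩ := IsIntegrallyClosed.isIntegral_iff.1 h2
  have h3 : IsIntegral (MvPolynomial σ k) f := by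
    rw [← hf] at hy
    exact (isIntegral_algebraMap_iff (IsFractionRing.injective (MvPolynomial σ B) E)).1 hy
  have h4 := MvPolynomial.isIntegral_iff_isIntegral_coeff.1 h3
  have h5 : f ∈ (MvPolynomial.map (algebraMap k B) : MvPolynomial σ k →+* _).range := by
    show f ∈ Set.range (MvPolynomial.map (algebraMap k B))
    rw [MvPolynomial.mem_range_map_iff_coeffs_subset]
    intro c hc'
    obtain ⟨m, _, rfl⟩ := MvPolynomial.mem_coeffs_iff.1 hc'
    exact h _ (h4 m)
  obtain ⟨g, hg⟩ := h5
  have hy0' : algebraMap (MvPolynomial σ k) K y ≠ 0 := by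
    intro h0
    exact hy0 (IsFractionRing.injective (MvPolynomial σ k) K (by rw [h0, map_zero]))
  refine ⟨algebraMap _ K g / algebraMap _ K y, ?_⟩
  have h6 : algebraMap K E (algebraMap _ K y) * e = algebraMap K E (algebraMap _ K g) := by
    rw [← IsScalarTower.algebraMap_apply, ← IsScalarTower.algebraMap_apply, ← Algebra.smul_def,
      ← hf, hc, hg]
  rw [map_div₀, ← h6, mul_div_cancel_left₀]
  intro h0
  exact hy0' ((map_eq_zero _).1 h0)

end rational

section final

variable {k F B σ K E Ω : Type} [Field k] [Field F] [Field B] [Algebra k F] [Algebra k B]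
  [Field K] [Field E] [Field Ω]
  [Algebra (MvPolynomial σ k) K] [IsFractionRing (MvPolynomial σ k) K]
  [Algebra (MvPolynomial σ B) E] [IsFractionRing (MvPolynomial σ B) E] [Algebra K E]
  [Algebra (MvPolynomial σ k) E] [IsScalarTower (MvPolynomial σ k) K E]

/-- Elements of `B` which are independent over `k` are independent over `k(x)` in `B(x)`. -/
theorem reg_indep' (hc : ∀ p : MvPolynomial σ k, algebraMap (MvPolynomial σ k) E p =
      algebraMap (MvPolynomial σ B) E (MvPolynomial.map (algebraMap k B) p)) {n : ℕ}
    {b : Fin n → B} (hb : LinearIndependent k b) :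
    LinearIndependent K (fun s => algebraMap (MvPolynomial σ B) E (MvPolynomial.C (b s))) := by
  classical
  rw [← LinearIndependent.iff_fractionRing (MvPolynomial σ k) K, Fintype.linearIndependent_iff]
  intro g hg
  have h2 : ∑ s, MvPolynomial.map (algebraMap k B) (g s) * MvPolynomial.C (b s) = 0 := by
    apply IsFractionRing.injective (MvPolynomial σ B) E
    rw [map_sum, map_zero, ← hg]
    refine Finset.sum_congr rfl fun s _ => ?_
    rw [map_mul, ← hc, Algebra.smul_def]
  intro s
  ext m
  have h3 := congrArg (MvPolynomial.coeff m) h2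
  rw [MvPolynomial.coeff_sum, MvPolynomial.coeff_zero] at h3
  have h4 : ∑ s, MvPolynomial.coeff m (g s) • b s = 0 := by
    rw [← h3]
    refine Finset.sum_congr rfl fun s _ => ?_
    rw [mul_comm, MvPolynomial.coeff_C_mul, MvPolynomial.coeff_map, Algebra.smul_def, mul_comm]
  exact Fintype.linearIndependent_iff.1 hb _ h4 s

/-- `k(x)` in `F`, if `x` is a transcendence basis of `F`. -/
theorem reg_alg [Algebra K F] {x : σ → F} (hx : IsTranscendenceBasis k x)
    (hKF : ∀ p : MvPolynomial σ k, algebraMap K F (algebraMap (MvPolynomial σ k) K p) =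
      MvPolynomial.aeval x p) : Algebra.IsAlgebraic K F := by
  have h1 : Algebra.IsAlgebraic (Algebra.adjoin k (Set.range x)) F := hx.isAlgebraic
  refine ⟨fun f => ?_⟩
  obtain ⟨p, hp0, hp⟩ := h1.isAlgebraic f
  have h2 := hx.1.aevalEquiv
  refine ⟨(p.map (hx.1.aevalEquiv.symm : Algebra.adjoin k (Set.range x) →+* MvPolynomial σ k)).map
    (algebraMap (MvPolynomial σ k) K), ?_, ?_⟩
  · intro h0
    apply hp0
    apply Polynomial.map_injective
      (hx.1.aevalEquiv.symm : Algebra.adjoin k (Set.range x) →+* MvPolynomial σ k)
      hx.1.aevalEquiv.symm.injective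
    apply Polynomial.map_injective _ (IsFractionRing.injective (MvPolynomial σ k) K)
    rw [h0, Polynomial.map_zero, Polynomial.map_zero]
  · rw [Polynomial.aeval_def, Polynomial.eval₂_map, Polynomial.eval₂_map]
    rw [Polynomial.aeval_def] at hp
    have h3 : ((algebraMap K F).comp (algebraMap (MvPolynomial σ k) K)).comp
        (hx.1.aevalEquiv.symm : Algebra.adjoin k (Set.range x) →+* MvPolynomial σ k) =
        algebraMap (Algebra.adjoin k (Set.range x)) F := by
      refine RingHom.ext fun c => ?_
      show algebraMap K F (algebraMap (MvPolynomial σ k) K (hx.1.aevalEquiv.symm c)) = (c : F)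
      rw [hKF, ← hx.1.algebraMap_aevalEquiv, AlgEquiv.apply_symm_apply]
      rfl
    rw [h3]
    exact hp

theorem reg_final [CharZero k] [Algebra K F] [Algebra E Ω] [Algebra K Ω] [IsScalarTower K E Ω]
    [IsAlgClosed Ω]
    (h : ∀ b : B, IsIntegral k b → b ∈ (algebraMap k B).range)
    (hc : ∀ p : MvPolynomial σ k, algebraMap (MvPolynomial σ k) E p =
      algebraMap (MvPolynomial σ B) E (MvPolynomial.map (algebraMap k B) p))
    {x : σ → F} (hx : IsTranscendenceBasis k x)
    (hKF : ∀ p : MvPolynomial σ k, algebraMap K F (algebraMap (MvPolynomial σ k) K p) =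
      MvPolynomial.aeval x p) :
    ∃ (i : F →+* Ω) (j : B →+* Ω), (∀ c : k, i (algebraMap k F c) = j (algebraMap k B c)) ∧
      ∀ (n : ℕ) (f : Fin n → F) (b : Fin n → B), LinearIndependent k b →
        ∑ s, i (f s) * j (b s) = 0 → ∀ s, f s = 0 := by
  have halg : Algebra.IsAlgebraic K F := reg_alg hx hKF
  have hchar : CharZero K :=
    charZero_of_injective_algebraMap (IsFractionRing.injective (MvPolynomial σ k) K)
  let i : F →ₐ[K] Ω := IsAlgClosed.lift
  let j : B →+* Ω := (algebraMap E Ω).comp ((algebraMap (MvPolynomial σ B) E).comp MvPolynomial.C)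
  refine ⟨(i : F →+* Ω), j, ?_, ?_⟩
  · intro c
    have h1 : algebraMap k F c =
        algebraMap K F (algebraMap (MvPolynomial σ k) K (MvPolynomial.C c)) := by
      rw [hKF, MvPolynomial.aeval_C]
    show i (algebraMap k F c) = j (algebraMap k B c)
    rw [h1, AlgHom.commutes, IsScalarTower.algebraMap_apply K E Ω]
    show algebraMap E Ω _ = algebraMap E Ω _
    congr 1
    rw [← IsScalarTower.algebraMap_apply, hc, MvPolynomial.map_C]
    rfl
  · intro n f b hb h0 s
    have hbE := reg_indep' (K := K) (E := E) hc hb
    have hint : ∀ s, IsIntegral K (i (f s)) := fun s =>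
      (Algebra.IsIntegral.isIntegral (R := K) (f s)).map i
    have h5 : i (f s) = 0 := reg_indep (Ω := Ω) (fun e he => reg_closed h hc e he) hbE hint h0 s
    exact (map_eq_zero i).1 h5

end final

/-- If `k` (of characteristic zero) is algebraically closed in `B`, then `B` and every extension field
`F` of `k` have linearly disjoint embeddings in a common field. -/
theorem exists_linDisj (k F B : Type) [Field k] [Field F] [Field B] [Algebra k F] [Algebra k B]
    [CharZero k] (h : ∀ b : B, IsIntegral k b → b ∈ (algebraMap k B).range) :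
    ∃ (Ω : Type) (_ : Field Ω) (i : F →+* Ω) (j : B →+* Ω),
      (∀ c : k, i (algebraMap k F c) = j (algebraMap k B c)) ∧
      ∀ (n : ℕ) (f : Fin n → F) (b : Fin n → B), LinearIndependent k b →
        ∑ s, i (f s) * j (b s) = 0 → ∀ s, f s = 0 := by
  obtain ⟨σ, x, hx⟩ := exists_isTranscendenceBasis' k F
  let φ : MvPolynomial σ k →+* MvPolynomial σ B := MvPolynomial.map (algebraMap k B)
  have hφ : Function.Injective φ := MvPolynomial.map_injective _ (algebraMap k B).injective
  let _ : Algebra (MvPolynomial σ k) (FractionRing (MvPolynomial σ B)) :=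
    ((algebraMap (MvPolynomial σ B) (FractionRing (MvPolynomial σ B))).comp φ).toAlgebra
  have hc : ∀ p : MvPolynomial σ k, algebraMap (MvPolynomial σ k)
      (FractionRing (MvPolynomial σ B)) p = algebraMap (MvPolynomial σ B)
        (FractionRing (MvPolynomial σ B)) (MvPolynomial.map (algebraMap k B) p) := fun p => rfl
  have hinj : Function.Injective
      (algebraMap (MvPolynomial σ k) (FractionRing (MvPolynomial σ B))) :=
    (IsFractionRing.injective (MvPolynomial σ B) _).comp hφ
  let _ : Algebra (FractionRing (MvPolynomial σ k)) (FractionRing (MvPolynomial σ B)) :=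
    (IsFractionRing.lift (K := FractionRing (MvPolynomial σ k)) hinj).toAlgebra
  have hsc : IsScalarTower (MvPolynomial σ k) (FractionRing (MvPolynomial σ k))
      (FractionRing (MvPolynomial σ B)) :=
    IsScalarTower.of_algebraMap_eq fun p => (IsFractionRing.lift_algebraMap hinj p).symm
  have hinj2 : Function.Injective (MvPolynomial.aeval x : MvPolynomial σ k →ₐ[k] F).toRingHom :=
    hx.1
  let _ : Algebra (FractionRing (MvPolynomial σ k)) F :=
    (IsFractionRing.lift (K := FractionRing (MvPolynomial σ k)) hinj2).toAlgebra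
  have hKF : ∀ p : MvPolynomial σ k, algebraMap (FractionRing (MvPolynomial σ k)) F
      (algebraMap (MvPolynomial σ k) (FractionRing (MvPolynomial σ k)) p) =
      MvPolynomial.aeval x p := fun p => IsFractionRing.lift_algebraMap hinj2 p
  exact ⟨AlgebraicClosure (FractionRing (MvPolynomial σ B)), inferInstance,
    reg_final h hc hx hKF⟩

/-- A regular extension stays a domain after every extension of the base field. -/
theorem isDomain_regular {k B F : Type} [Field k] [CharZero k] [Field B] [Field F] [Algebra k B]
    [Algebra k F] (h : ∀ b : B, IsAlgebraic k b → ∃ c : k, algebraMap k B c = b) :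
    IsDomain (F ⊗[k] B) := by
  obtain ⟨Ω, _, i, j, hij, hind⟩ := exists_linDisj k F B fun b hb => h b hb.isAlgebraic
  let _ : Algebra k Ω := (i.comp (algebraMap k F)).toAlgebra
  let i' : F →ₐ[k] Ω := { i with commutes' := fun _ => rfl }
  let j' : B →ₐ[k] Ω := { j with commutes' := fun c => (hij c).symm }
  have hinj : Function.Injective (Algebra.TensorProduct.productMap i' j') := by
    rw [injective_iff_map_eq_zero]
    intro t ht
    obtain ⟨c, hc⟩ := TensorProduct.eq_repr_basis_right (Module.Basis.ofVectorSpace k B) t
    have h1 : ∑ s : Fin c.support.card, i (c (c.support.equivFin.symm s)) *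
        j (Module.Basis.ofVectorSpace k B (c.support.equivFin.symm s)) = 0 := by
      rw [Equiv.sum_comp c.support.equivFin.symm fun s : c.support => i (c s) *
        j (Module.Basis.ofVectorSpace k B s), Finset.sum_coe_sort c.support fun s => i (c s) *
        j (Module.Basis.ofVectorSpace k B s), ← ht, ← hc, Finsupp.sum, map_sum]
      exact Finset.sum_congr rfl fun s _ =>
        (Algebra.TensorProduct.productMap_apply_tmul i' j' (c s) _).symm
    have h2 := hind _ _ _ ((Module.Basis.ofVectorSpace k B).linearIndependent.comp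
      (fun s : Fin c.support.card => ((c.support.equivFin.symm s : c.support) : _))
      (Subtype.val_injective.comp c.support.equivFin.symm.injective)) h1
    have h3 : c = 0 := by
      ext s
      by_contra hs
      have h4 := h2 (c.support.equivFin ⟨s, Finsupp.mem_support_iff.2 hs⟩)
      rw [Equiv.symm_apply_apply] at h4
      exact hs h4
    rw [← hc, h3, Finsupp.sum_zero_index]
  exact hinj.isDomain

theorem isDomain_finite {k B F : Type} [Field k] [CharZero k] [Field B] [Field F] [Algebra k B]
    [Algebra k F] [FiniteDimensional k F]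
    (h : ∀ b : B, IsAlgebraic k b → ∃ c : k, algebraMap k B c = b) : IsDomain (F ⊗[k] B) :=
  isDomain_regular h

end Pool.Agent.LibFB
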